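import Pool.Agent.H10.IEP.Targets

/-!
# MP_e37c09_lc, row LX: local definability of `Sml`
-/

set_option autoImplicit false

open Ordinal Cardinal Order Set
open scoped ZFSet

universe u

namespace Pool.Agent.H89.IEP

open _root_.HD Pool.Agent.H10.IEP

/-- `Ph` for sets -/
def QQ (m r F i : ZFSet.{u}) : Prop :=
  m.IsOrdinal ∧ r.IsOrdinal ∧ i.IsOrdinal ∧ Ph m.rank r.rank F i.rank

theorem loc_QQ (h : T_LP.{u}) (a b c d : ℕ) : Loc.{u} fun v => QQ (v a) (v b) (v c) (v d) :=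
  Loc.ren (P := fun v => (v 0).IsOrdinal ∧ (v 1).IsOrdinal ∧ (v 3).IsOrdinal ∧
    Ph (v 0).rank (v 1).rank (v 2) (v 3).rank) h
    (fun n => if n = 0 then a else if n = 1 then b else if n = 2 then c else d)

/-- the body of `SS` -/
def SB (m r F b t h : ZFSet.{u}) : Prop :=
  (∀ a ∈ t, ∃ x ∈ b, ZFSet.pair a x ∈ h) ∧
  (∀ a ∈ t, ∀ c ∈ t, ∀ x ∈ b, ∀ y ∈ b, a ∈ c → ZFSet.pair a x ∈ h → ZFSet.pair c y ∈ h →
    x ∈ y) ∧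
  (∀ a ∈ t, ∀ x ∈ b, ∀ y ∈ b, ZFSet.pair a x ∈ h → ZFSet.pair a y ∈ h → x = y) ∧
  (∀ y ∈ b, ∃ a ∈ t, ∃ z ∈ b, ZFSet.pair a z ∈ h ∧ y ∈ z) ∧
  (∀ i ∈ b, (QQ m r F i ↔ ∃ a ∈ t, ZFSet.pair a i ∈ h))

/-- `Sml` for sets -/
def SS (m r F b : ZFSet.{u}) : Prop :=
  ∃ p, p = ZFSet.prod b b ∧ ∃ t ∈ b, ∃ h ⊆ p, SB m r F b t h

theorem loc_SB (hP : T_LP.{u}) :
    Loc.{u} fun v => SB (v 3) (v 4) (v 5) (v 6) (v 1) (v 0) := by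
  refine Loc.and (Loc.allMem 1 (Loc.exMem 7 (loc_pmem 1 0 2))) (Loc.and
    (Loc.allMem 1 (Loc.allMem 2 (Loc.allMem 8 (Loc.allMem 9 ((Loc.mem 3 2).imp
      ((loc_pmem 3 1 4).imp ((loc_pmem 2 0 4).imp (Loc.mem 1 0)))))))) (Loc.and
    (Loc.allMem 1 (Loc.allMem 7 (Loc.allMem 8 ((loc_pmem 2 1 3).imp
      ((loc_pmem 2 0 3).imp (Loc.eq 1 0)))))) (Loc.and
    (Loc.allMem 6 (Loc.exMem 2 (Loc.exMem 8 ((loc_pmem 1 0 3).and (Loc.mem 2 0)))))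
    (Loc.allMem 6 ((loc_QQ hP 4 5 6 0).iff (Loc.exMem 2 (loc_pmem 0 1 2)))))))

theorem loc_SS (hP : T_LP.{u}) : Loc.{u} fun v => SS (v 0) (v 1) (v 2) (v 3) := by
  have h1 : Loc.{u} fun v => v 0 = ZFSet.prod (v 4) (v 4) ∧ ∃ t ∈ v 4, ∃ h ⊆ v 0,
      SB (v 1) (v 2) (v 3) (v 4) t h :=
    (loc_prod 0 4 4).and (Loc.exMem 4 (Loc.exSub 1 (loc_SB hP)))
  exact Loc.ex (R := fun p v => p = ZFSet.prod (v 3) (v 3) ∧ ∃ t ∈ v 3, ∃ h ⊆ p,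
    SB (v 0) (v 1) (v 2) (v 3) t h) h1 fun η hη v hv x hx => by
      rw [hx.1]
      exact hη.prod (hv 3) (hv 3)

theorem sml_iff (μ ρ : Ordinal.{u}) (F : ZFSet.{u}) (β : Ordinal.{u}) :
    Sml μ ρ F β ↔ SS μ.toZFSet ρ.toZFSet F β.toZFSet := by
  have hQ : ∀ i : Ordinal.{u}, QQ μ.toZFSet ρ.toZFSet F i.toZFSet ↔ Ph μ ρ F i := by
    intro i
    unfold QQ
    rw [rank_toZFSet, rank_toZFSet, rank_toZFSet]
    exact ⟨fun h => h.2.2.2, fun h => ⟨ZFSet.isOrdinal_toZFSet _, ZFSet.isOrdinal_toZFSet _,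
      ZFSet.isOrdinal_toZFSet _, h⟩⟩
  constructor
  · rintro ⟨τ, hτ, h, h1, h2, h3, h4⟩
    refine ⟨_, rfl, τ.toZFSet, toZFSet_mem_toZFSet_iff.2 hτ,
      rs β β (fun a x => a < τ ∧ x = h a), ?_, ?_, ?_, ?_, ?_, ?_⟩
    · intro p hp
      obtain ⟨a, ha, b, hb, -, rfl⟩ := mem_rs.1 hp
      rw [ZFSet.pair_mem_prod, toZFSet_mem_toZFSet_iff, toZFSet_mem_toZFSet_iff]
      exact ⟨ha, hb⟩
    · intro a ha
      obtain ⟨a, ka, rfl⟩ := mem_toZFSet_iff.1 ha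
      exact ⟨(h a).toZFSet, toZFSet_mem_toZFSet_iff.2 (h2 a ka),
        pair_mem_rs.2 ⟨ka.trans hτ, h2 a ka, ka, rfl⟩⟩
    · intro a ha c hc x hx y hy hac hax hcy
      obtain ⟨a, ka, rfl⟩ := mem_toZFSet_iff.1 ha
      obtain ⟨c, kc, rfl⟩ := mem_toZFSet_iff.1 hc
      obtain ⟨x, kx, rfl⟩ := mem_toZFSet_iff.1 hx
      obtain ⟨y, ky, rfl⟩ := mem_toZFSet_iff.1 hy
      obtain ⟨-, -, -, rfl⟩ := pair_mem_rs.1 hax
      obtain ⟨-, -, -, rfl⟩ := pair_mem_rs.1 hcy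
      rw [toZFSet_mem_toZFSet_iff] at hac ⊢
      exact h1 a c hac kc
    · intro a ha x hx y hy hax hay
      obtain ⟨a, ka, rfl⟩ := mem_toZFSet_iff.1 ha
      obtain ⟨x, kx, rfl⟩ := mem_toZFSet_iff.1 hx
      obtain ⟨y, ky, rfl⟩ := mem_toZFSet_iff.1 hy
      obtain ⟨-, -, -, rfl⟩ := pair_mem_rs.1 hax
      obtain ⟨-, -, -, rfl⟩ := pair_mem_rs.1 hay
      rfl
    · intro y hy
      obtain ⟨y, ky, rfl⟩ := mem_toZFSet_iff.1 hy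
      obtain ⟨a, ha, hya⟩ := h3 y ky
      exact ⟨a.toZFSet, toZFSet_mem_toZFSet_iff.2 ha, (h a).toZFSet,
        toZFSet_mem_toZFSet_iff.2 (h2 a ha),
        pair_mem_rs.2 ⟨ha.trans hτ, h2 a ha, ha, rfl⟩, toZFSet_mem_toZFSet_iff.2 hya⟩
    · intro i hi
      obtain ⟨i, ki, rfl⟩ := mem_toZFSet_iff.1 hi
      rw [hQ, h4 i ki]
      constructor
      · rintro ⟨a, ha, rfl⟩
        exact ⟨a.toZFSet, toZFSet_mem_toZFSet_iff.2 ha,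
          pair_mem_rs.2 ⟨ha.trans hτ, h2 a ha, ha, rfl⟩⟩
      · rintro ⟨a, ha, hai⟩
        obtain ⟨a, ka, rfl⟩ := mem_toZFSet_iff.1 ha
        obtain ⟨-, -, -, rfl⟩ := pair_mem_rs.1 hai
        exact ⟨a, ka, rfl⟩
  · rintro ⟨p, -, t, ht, h, -, h1, h2, h3, h4, h5⟩
    obtain ⟨τ, kτ, rfl⟩ := mem_toZFSet_iff.1 ht
    have e : ∀ a < τ, ∃ x < β, ZFSet.pair a.toZFSet x.toZFSet ∈ h := by
      intro a ha
      obtain ⟨x, hx, hax⟩ := h1 a.toZFSet (toZFSet_mem_toZFSet_iff.2 ha)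
      obtain ⟨x, kx, rfl⟩ := mem_toZFSet_iff.1 hx
      exact ⟨x, kx, hax⟩
    choose! g hg1 hg2 using e
    have hu : ∀ a < τ, ∀ x < β, ZFSet.pair a.toZFSet x.toZFSet ∈ h → x = g a := by
      intro a ha x hx hax
      exact toZFSet_injective (h3 _ (toZFSet_mem_toZFSet_iff.2 ha) _
        (toZFSet_mem_toZFSet_iff.2 hx) _ (toZFSet_mem_toZFSet_iff.2 (hg1 a ha)) hax (hg2 a ha))
    refine ⟨τ, kτ, g, ?_, hg1, ?_, ?_⟩
    · intro a b hab hb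
      have ha := hab.trans hb
      exact toZFSet_mem_toZFSet_iff.1 (h2 _ (toZFSet_mem_toZFSet_iff.2 ha) _
        (toZFSet_mem_toZFSet_iff.2 hb) _ (toZFSet_mem_toZFSet_iff.2 (hg1 a ha)) _
        (toZFSet_mem_toZFSet_iff.2 (hg1 b hb)) (toZFSet_mem_toZFSet_iff.2 hab) (hg2 a ha)
        (hg2 b hb))
    · intro y hy
      obtain ⟨a, ha, z, hz, haz, hyz⟩ := h4 _ (toZFSet_mem_toZFSet_iff.2 hy)
      obtain ⟨a, ka, rfl⟩ := mem_toZFSet_iff.1 ha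
      obtain ⟨z, kz, rfl⟩ := mem_toZFSet_iff.1 hz
      refine ⟨a, ka, ?_⟩
      rw [← hu a ka z kz haz]
      exact toZFSet_mem_toZFSet_iff.1 hyz
    · intro i hi
      rw [← hQ, h5 _ (toZFSet_mem_toZFSet_iff.2 hi)]
      constructor
      · rintro ⟨a, ha, hai⟩
        obtain ⟨a, ka, rfl⟩ := mem_toZFSet_iff.1 ha
        exact ⟨a, ka, hu a ka i hi hai⟩
      · rintro ⟨a, ha, rfl⟩
        exact ⟨a.toZFSet, toZFSet_mem_toZFSet_iff.2 ha, hg2 a ha⟩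

theorem pf_LX (hLP : T_LP.{u}) : T_LX.{u} := by
  refine ((loc_ord 0).and ((loc_ord 1).and ((loc_ord 3).and (loc_SS hLP)))).congr fun v => ?_
  refine and_congr_right fun h0 => and_congr_right fun h1 => and_congr_right fun h3 => ?_
  rw [sml_iff, h0.toZFSet_rank_eq, h1.toZFSet_rank_eq, h3.toZFSet_rank_eq]

end Pool.Agent.H89.IEP
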